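import Pool.Agent.TZ.HAsm

/-!
MP_b753aa_pr: the size of the support of an eigenvector in terms of its eigenvalue, general independent entries.
-/

namespace Pool.Agent.Results.MP_b753aa_pr.SupportByEnergy

open MeasureTheory ProbabilityTheory Filter Topology TZ

/-- There is `κ > 0` such that for every `ε > 0`, for independent entries with mean zero, variance one and
`E |a_i|^γ ≤ C`, where `γ > 2`, with probability tending to one: all eigenvalues of `PDP` on the range of `P` are at most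
`(κ + ε) √(log n)` in absolute value, there are eigenvalues `≥ (κ - ε) √(log n)` and `≤ -(κ - ε) √(log n)`, and every
unit eigenvector in the range of `P` with eigenvalue `lam` has mass at least `1 - ε` on a set of at most
`n^(1 - (lam / (κ √(log n)))² + ε)` sites. -/
theorem result : ∃ κ : ℝ, 0 < κ ∧ ∀ ε : ℝ, 0 < ε → ∀ (γ C : ℝ), 2 < γ →
    ∀ (μ : (n : ℕ) → Fin n → Measure ℝ) [∀ n i, IsProbabilityMeasure (μ n i)], (∀ n i, Mom γ C (μ n i)) →
    Tendsto (fun n : ℕ => Measure.pi (μ n) {a | ¬ ∀ c : ℝ,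
      (∀ (v : Fin (2 * n) → ℂ) (lam : ℝ), Eig n a c v lam → |lam| ≤ (κ + ε) * √(Real.log n)) ∧
      (∃ (v : Fin (2 * n) → ℂ) (lam : ℝ), Eig n a c v lam ∧ (κ - ε) * √(Real.log n) ≤ lam) ∧
      (∃ (v : Fin (2 * n) → ℂ) (lam : ℝ), Eig n a c v lam ∧ lam ≤ -((κ - ε) * √(Real.log n))) ∧
      ∀ (v : Fin (2 * n) → ℂ) (lam : ℝ), Eig n a c v lam →
        ∃ S : Finset (Fin (2 * n)), (S.card : ℝ) ≤ (n : ℝ) ^ (1 - (lam / (κ * √(Real.log n))) ^ 2 + ε) ∧
          1 - ε ≤ ∑ j ∈ S, ‖v j‖ ^ 2}) atTop (𝓝 0) :=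
  supp

end Pool.Agent.Results.MP_b753aa_pr.SupportByEnergy
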